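import Mathlib
import Pool.Agent.H97R2.BP.Defs
import Pool.Agent.H97R2.BP.Defs2

open scoped ComplexOrder InnerProductSpace ComplexConjugate TensorProduct
open Finset H759R2.Kad H710R2.DP

set_option linter.deprecated false

noncomputable section

namespace H97R2.BP

namespace ZZ92

variable {H : Type} [NormedAddCommGroup H] [InnerProductSpace ℂ H] [CompleteSpace H]

/-- bounded operators -/
abbrev BO (K : Type) [NormedAddCommGroup K] [InnerProductSpace ℂ K] : Type := K →L[ℂ] K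

/-- compression to a closed subspace -/
def cmp (S : Submodule ℂ H) [CompleteSpace S] (x : H →L[ℂ] H) : BO S :=
  S.subtypeL.adjoint ∘L x ∘L S.subtypeL

section cmp

variable (S : Submodule ℂ H) [CompleteSpace S]

theorem inner_cmp (x : H →L[ℂ] H) (s s' : S) :
    ⟪s', cmp S x s⟫_ℂ = ⟪(s' : H), x (s : H)⟫_ℂ := by
  unfold cmp
  rw [ContinuousLinearMap.comp_apply, ContinuousLinearMap.adjoint_inner_right]
  rfl

theorem cmp_inv {x : H →L[ℂ] H} {s : S} (h : x (s : H) ∈ S) : cmp S x s = ⟨x (s : H), h⟩ := by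
  refine ext_inner_left ℂ fun s' => ?_
  rw [inner_cmp]
  rfl

theorem cmp_add (x y : H →L[ℂ] H) : cmp S (x + y) = cmp S x + cmp S y := by
  ext s
  unfold cmp
  simp

theorem cmp_smul (c : ℂ) (x : H →L[ℂ] H) : cmp S (c • x) = c • cmp S x := by
  ext s
  unfold cmp
  simp

theorem cmp_star (x : H →L[ℂ] H) : cmp S (star x) = star (cmp S x) := by
  unfold cmp
  rw [ContinuousLinearMap.star_eq_adjoint, ContinuousLinearMap.star_eq_adjoint,
    ContinuousLinearMap.adjoint_comp, ContinuousLinearMap.adjoint_comp,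
    ContinuousLinearMap.adjoint_adjoint]
  rfl

end cmp

/-- extension of a bounded map from the range of a linear map -/
theorem ext_lemma {V : Type} [AddCommGroup V] [Module ℂ V] (Φ Ψ : V →ₗ[ℂ] H)
    (h : ∀ w, ‖Ψ w‖ ≤ ‖Φ w‖) : ∃ Y : H →L[ℂ] H, ∀ w, Y (Φ w) = Ψ w := by
  set P : Submodule ℂ H := (LinearMap.range Φ).topologicalClosure with hP
  have : CompleteSpace P := (Submodule.isClosed_topologicalClosure _).completeSpace_coe
  have hmem : ∀ w, Φ w ∈ P := fun w =>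
    Submodule.le_topologicalClosure _ (LinearMap.mem_range_self Φ w)
  set e : V →ₗ[ℂ] P := Φ.codRestrict P hmem with he
  have hdense : DenseRange e := by
    intro y
    rw [Metric.mem_closure_iff]
    intro ε hε
    have hy : (y : H) ∈ closure ((LinearMap.range Φ : Submodule ℂ H) : Set H) := y.2
    obtain ⟨z, ⟨w, rfl⟩, hz⟩ := Metric.mem_closure_iff.mp hy ε hε
    exact ⟨e w, ⟨w, rfl⟩, hz⟩
  refine ⟨(Ψ.extendOfNorm e) ∘L P.subtypeL.adjoint, fun w => ?_⟩
  have h1 : P.subtypeL.adjoint (Φ w) = e w := by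
    refine ext_inner_left ℂ fun s' => ?_
    rw [ContinuousLinearMap.adjoint_inner_right]
    rfl
  rw [ContinuousLinearMap.comp_apply, h1]
  exact LinearMap.extendOfNorm_eq hdense ⟨1, fun w => by rw [one_mul]; exact h w⟩ w

/-- `t ⊗ s ↦ t (n s)` -/
def Fi (M : VonNeumannAlgebra H) (S : Submodule ℂ H) (n : BO S) :
    M.commutant.toStarSubalgebra ⊗[ℂ] S →ₗ[ℂ] H :=
  TensorProduct.lift (LinearMap.mk₂ ℂ
    (fun (t : M.commutant.toStarSubalgebra) (s : S) => (t : H →L[ℂ] H) (n s : H))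
    (fun t t' s => by simp) (fun c t s => by simp) (fun t s s' => by simp)
    (fun c t s => by simp))

theorem Fi_tmul (M : VonNeumannAlgebra H) (S : Submodule ℂ H) (n : BO S)
    (t : M.commutant.toStarSubalgebra) (s : S) :
    Fi M S n (t ⊗ₜ s) = (t : H →L[ℂ] H) (n s : H) := by
  simp [Fi]

/-- Hypotheses -/
structure Dat (M : VonNeumannAlgebra H) (ξ : H) (e : H →L[ℂ] H) : Prop where
  mem : e ∈ M
  pr : IsPr e
  fix : e ξ = ξ
  sup : ∀ y : H →L[ℂ] H, (∀ t : H →L[ℂ] H, t ∈ M.commutant → y (t ξ) = 0) → y * e = 0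

/-- the linear map `m ↦ e (m ξ)` -/
def vm (M : VonNeumannAlgebra H) (ξ : H) (e : H →L[ℂ] H) : M.toStarSubalgebra →ₗ[ℂ] H where
  toFun m := e ((m : H →L[ℂ] H) ξ)
  map_add' m m' := by simp
  map_smul' c m := by simp

/-- the closed subspace `[e M ξ]` -/
def SS (M : VonNeumannAlgebra H) (ξ : H) (e : H →L[ℂ] H) : Submodule ℂ H :=
  (LinearMap.range (vm M ξ e)).topologicalClosure

instance (M : VonNeumannAlgebra H) (ξ : H) (e : H →L[ℂ] H) : CompleteSpace (SS M ξ e) :=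
  (Submodule.isClosed_topologicalClosure _).completeSpace_coe

/-- the corner -/
def Ec (M : VonNeumannAlgebra H) (e : H →L[ℂ] H) : Set (H →L[ℂ] H) :=
  {a | a ∈ M ∧ e * a = a ∧ a * e = a}

theorem smul_mem_vn (M : VonNeumannAlgebra H) (c : ℂ) {a : H →L[ℂ] H} (ha : a ∈ M) :
    c • a ∈ M := M.toStarSubalgebra.smul_mem ha c

theorem Ec_add {M : VonNeumannAlgebra H} {e a b : H →L[ℂ] H} (ha : a ∈ Ec M e)
    (hb : b ∈ Ec M e) : a + b ∈ Ec M e := by
  obtain ⟨h1, h2, h3⟩ := ha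
  obtain ⟨k1, k2, k3⟩ := hb
  exact ⟨add_mem h1 k1, by rw [mul_add, h2, k2], by rw [add_mul, h3, k3]⟩

theorem Ec_smul {M : VonNeumannAlgebra H} {e a : H →L[ℂ] H} (c : ℂ) (ha : a ∈ Ec M e) :
    c • a ∈ Ec M e := by
  obtain ⟨h1, h2, h3⟩ := ha
  exact ⟨smul_mem_vn M c h1, by rw [mul_smul_comm, h2], by rw [smul_mul_assoc, h3]⟩

theorem Ec_mul {M : VonNeumannAlgebra H} {e a b : H →L[ℂ] H} (ha : a ∈ Ec M e)
    (hb : b ∈ Ec M e) : a * b ∈ Ec M e := by
  obtain ⟨h1, h2, h3⟩ := ha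
  obtain ⟨k1, k2, k3⟩ := hb
  exact ⟨mul_mem h1 k1, by rw [← mul_assoc, h2], by rw [mul_assoc, k3]⟩

theorem Ec_star {M : VonNeumannAlgebra H} {e a : H →L[ℂ] H} (he : star e = e)
    (ha : a ∈ Ec M e) : star a ∈ Ec M e := by
  obtain ⟨h1, h2, h3⟩ := ha
  refine ⟨star_mem h1, ?_, ?_⟩
  · nth_rewrite 1 [← he]; rw [← star_mul, h3]
  · nth_rewrite 1 [← he]; rw [← star_mul, h2]

section main

variable {M : VonNeumannAlgebra H} {ξ : H} {e : H →L[ℂ] H}

theorem S_inv (hD : Dat M ξ e) {a : H →L[ℂ] H} (ha : a ∈ Ec M e) {s : H}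
    (hs : s ∈ SS M ξ e) : a s ∈ SS M ξ e := by
  have h1 : s ∈ closure ((LinearMap.range (vm M ξ e) : Submodule ℂ H) : Set H) := hs
  have h2 := map_mem_closure a.continuous h1
    (t := ((LinearMap.range (vm M ξ e) : Submodule ℂ H) : Set H)) ?_
  · exact h2
  · rintro y ⟨m, rfl⟩
    refine ⟨⟨a * (m : H →L[ℂ] H), mul_mem ha.1 m.2⟩, ?_⟩
    show e ((a * (m : H →L[ℂ] H)) ξ) = a (e ((m : H →L[ℂ] H) ξ))
    rw [ContinuousLinearMap.mul_apply, ← ContinuousLinearMap.mul_apply e a, ha.2.1,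
      ← ContinuousLinearMap.mul_apply a e, ha.2.2]

theorem S_fix (hD : Dat M ξ e) {s : H} (hs : s ∈ SS M ξ e) : e s = s := by
  have h1 : s ∈ closure ((LinearMap.range (vm M ξ e) : Submodule ℂ H) : Set H) := hs
  have hc : IsClosed {s : H | e s = s} := isClosed_eq e.continuous continuous_id
  refine hc.closure_subset_iff.mpr ?_ h1
  rintro y ⟨m, rfl⟩
  show e (e ((m : H →L[ℂ] H) ξ)) = e ((m : H →L[ℂ] H) ξ)
  rw [← ContinuousLinearMap.mul_apply e e, hD.pr.2]

theorem ξ_mem (hD : Dat M ξ e) : ξ ∈ SS M ξ e := by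
  refine Submodule.le_topologicalClosure _ ⟨1, ?_⟩
  show e ((1 : H →L[ℂ] H) ξ) = ξ
  rw [ContinuousLinearMap.one_apply, hD.fix]

theorem Ec_zero (hD : Dat M ξ e) {a : H →L[ℂ] H} (ha : a ∈ Ec M e) (h0 : a ξ = 0) : a = 0 := by
  have h1 : a * e = 0 := by
    apply hD.sup
    intro t ht
    rw [← ContinuousLinearMap.mul_apply, VonNeumannAlgebra.mem_commutant_iff.mp ht a ha.1,
      ContinuousLinearMap.mul_apply, h0, map_zero]
  rw [← ha.2.2, h1]

/-- compression of the corner -/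
def N0 (M : VonNeumannAlgebra H) (ξ : H) (e : H →L[ℂ] H) :
    Set (BO (SS M ξ e)) := cmp (SS M ξ e) '' Ec M e

theorem cmp_comm (hD : Dat M ξ e) {t : H →L[ℂ] H} (ht : t ∈ M.commutant) :
    cmp (SS M ξ e) t ∈ Set.centralizer (N0 M ξ e) := by
  rintro _ ⟨a, ha, rfl⟩
  ext1 s
  refine ext_inner_left ℂ fun s' => ?_
  rw [ContinuousLinearMap.mul_apply, ContinuousLinearMap.mul_apply, inner_cmp, inner_cmp,
    cmp_inv (SS M ξ e) (S_inv hD ha s.2)]
  have ha' := Ec_star hD.pr.1 ha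
  have h1 : ⟪(s' : H), a ((cmp (SS M ξ e) t s : SS M ξ e) : H)⟫_ℂ =
      ⟪(cmp (SS M ξ e) (star a) s' : SS M ξ e), cmp (SS M ξ e) t s⟫_ℂ := by
    rw [cmp_inv (SS M ξ e) (S_inv hD ha' s'.2)]
    show _ = ⟪star a (s' : H), ((cmp (SS M ξ e) t s : SS M ξ e) : H)⟫_ℂ
    rw [ContinuousLinearMap.star_eq_adjoint, ContinuousLinearMap.adjoint_inner_left]
  rw [h1, inner_cmp, cmp_inv (SS M ξ e) (S_inv hD ha' s'.2)]
  show ⟪star a (s' : H), t (s : H)⟫_ℂ = ⟪(s' : H), t (a (s : H))⟫_ℂ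
  rw [ContinuousLinearMap.star_eq_adjoint, ContinuousLinearMap.adjoint_inner_left]
  have h2 := VonNeumannAlgebra.mem_commutant_iff.mp ht a ha.1
  rw [← ContinuousLinearMap.mul_apply, h2, ContinuousLinearMap.mul_apply]

theorem Fi_inner (hD : Dat M ξ e) {n : BO (SS M ξ e)}
    (hn : n ∈ Set.centralizer (Set.centralizer (N0 M ξ e))) (hu : star n * n = 1)
    (w w' : M.commutant.toStarSubalgebra ⊗[ℂ] SS M ξ e) :
    ⟪Fi M _ n w, Fi M _ n w'⟫_ℂ = ⟪Fi M _ 1 w, Fi M _ 1 w'⟫_ℂ := by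
  induction w using TensorProduct.induction_on with
  | zero => simp
  | add x y hx hy => rw [map_add, map_add, inner_add_left, inner_add_left, hx, hy]
  | tmul t s =>
    induction w' using TensorProduct.induction_on with
    | zero => simp
    | add x y hx hy => rw [map_add, map_add, inner_add_right, inner_add_right, hx, hy]
    | tmul t' s' =>
      rw [Fi_tmul, Fi_tmul, Fi_tmul, Fi_tmul]
      have key : ∀ m : BO (SS M ξ e),
          ⟪(t : H →L[ℂ] H) (m s : H), (t' : H →L[ℂ] H) (m s' : H)⟫_ℂ =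
          ⟪m s, cmp (SS M ξ e) (star (t : H →L[ℂ] H) * (t' : H →L[ℂ] H)) (m s')⟫_ℂ := by
        intro m
        rw [inner_cmp, ContinuousLinearMap.mul_apply, ContinuousLinearMap.star_eq_adjoint,
          ContinuousLinearMap.adjoint_inner_right]
      rw [key n, key 1]
      have hmem : star (t : H →L[ℂ] H) * (t' : H →L[ℂ] H) ∈ M.commutant :=
        mul_mem (star_mem t.2) t'.2
      have h1 := hn _ (cmp_comm hD hmem)
      -- cmp * n = n * cmp
      have h2 : cmp (SS M ξ e) (star (t : H →L[ℂ] H) * (t' : H →L[ℂ] H)) (n s') =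
          n (cmp (SS M ξ e) (star (t : H →L[ℂ] H) * (t' : H →L[ℂ] H)) s') := by
        rw [← ContinuousLinearMap.mul_apply, h1, ContinuousLinearMap.mul_apply]
      rw [h2, ContinuousLinearMap.one_apply, ContinuousLinearMap.one_apply]
      rw [← ContinuousLinearMap.adjoint_inner_right, ← ContinuousLinearMap.star_eq_adjoint,
        ← ContinuousLinearMap.mul_apply, hu, ContinuousLinearMap.one_apply]

theorem e_Fi (hD : Dat M ξ e) (n : BO (SS M ξ e))
    (w : M.commutant.toStarSubalgebra ⊗[ℂ] SS M ξ e) : e (Fi M _ n w) = Fi M _ n w := by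
  induction w using TensorProduct.induction_on with
  | zero => simp
  | add x y hx hy => rw [map_add, map_add, hx, hy]
  | tmul t s =>
    rw [Fi_tmul, ← ContinuousLinearMap.mul_apply,
      VonNeumannAlgebra.mem_commutant_iff.mp t.2 e hD.mem, ContinuousLinearMap.mul_apply,
      S_fix hD (n s).2]

theorem Fi_sup (hD : Dat M ξ e) {y : H →L[ℂ] H}
    (hy : ∀ w : M.commutant.toStarSubalgebra ⊗[ℂ] SS M ξ e, y (Fi M _ 1 w) = 0) :
    y * e = 0 := by
  apply hD.sup
  intro t ht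
  have h := hy ((⟨t, ht⟩ : M.commutant.toStarSubalgebra) ⊗ₜ (⟨ξ, ξ_mem hD⟩ : SS M ξ e))
  rw [Fi_tmul] at h
  exact h

/-- unitary elements of the double commutant come from the corner -/
theorem unit_case (hD : Dat M ξ e) {n : BO (SS M ξ e)}
    (hn : n ∈ Set.centralizer (Set.centralizer (N0 M ξ e))) (hu : star n * n = 1) :
    ∃ a ∈ Ec M e, cmp (SS M ξ e) a = n := by
  obtain ⟨Y, hY⟩ := ext_lemma (Fi M (SS M ξ e) 1) (Fi M (SS M ξ e) n) (fun w => by
    have h := Fi_inner hD hn hu w w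
    rw [inner_self_eq_norm_sq_to_K, inner_self_eq_norm_sq_to_K] at h
    have h' : ‖Fi M (SS M ξ e) n w‖ ^ 2 = ‖Fi M (SS M ξ e) 1 w‖ ^ 2 := by exact_mod_cast h
    exact le_of_eq (by
      have := (sq_eq_sq₀ (norm_nonneg _) (norm_nonneg _)).mp h'
      exact this))
  obtain ⟨a, ha⟩ : ∃ a : H →L[ℂ] H, a = Y * e := ⟨_, rfl⟩
  have haF : ∀ w, a (Fi M (SS M ξ e) 1 w) = Fi M (SS M ξ e) n w := by
    intro w
    rw [ha, ContinuousLinearMap.mul_apply, e_Fi hD, hY]
  have hae : a * e = a := by rw [ha, mul_assoc, hD.pr.2]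
  clear ha
  have hea : e * a = a := by
    have h1 : (a - e * a) * e = 0 := by
      apply Fi_sup hD
      intro w
      rw [ContinuousLinearMap.sub_apply, ContinuousLinearMap.mul_apply, haF, e_Fi hD, sub_self]
    have h2 : (a - e * a) * e = a - e * a := by rw [sub_mul, mul_assoc, hae]
    rw [h2] at h1
    exact (sub_eq_zero.mp h1).symm
  have haM : a ∈ M := by
    rw [← VonNeumannAlgebra.commutant_commutant M, VonNeumannAlgebra.mem_commutant_iff]
    intro t ht
    have h1 : (t * a - a * t) * e = 0 := by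
      apply Fi_sup hD
      intro w
      induction w using TensorProduct.induction_on with
      | zero => simp
      | add x y hx hy => rw [map_add, map_add, hx, hy, add_zero]
      | tmul t' s =>
        have h3 : t ((Fi M (SS M ξ e) 1) (t' ⊗ₜ[ℂ] s)) =
            Fi M (SS M ξ e) 1 ((⟨t, ht⟩ * t' : M.commutant.toStarSubalgebra) ⊗ₜ[ℂ] s) := by
          rw [Fi_tmul, Fi_tmul]; rfl
        rw [ContinuousLinearMap.sub_apply, ContinuousLinearMap.mul_apply,
          ContinuousLinearMap.mul_apply, haF, h3, haF, Fi_tmul, Fi_tmul]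
        exact sub_self _
    have h2 : (t * a - a * t) * e = t * a - a * t := by
      have het : e * t = t * e := VonNeumannAlgebra.mem_commutant_iff.mp ht e hD.mem
      rw [sub_mul, mul_assoc, hae, mul_assoc, ← het, ← mul_assoc, hae]
    rw [h2] at h1
    exact sub_eq_zero.mp h1
  refine ⟨a, ⟨haM, hea, hae⟩, ?_⟩
  ext1 s
  rw [cmp_inv (SS M ξ e) (S_inv hD ⟨haM, hea, hae⟩ s.2)]
  apply Subtype.ext
  show a (s : H) = (n s : H)
  have h1 := haF ((1 : M.commutant.toStarSubalgebra) ⊗ₜ[ℂ] s)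
  rw [Fi_tmul, Fi_tmul] at h1
  exact h1

theorem star_N0 (hD : Dat M ξ e) : star (N0 M ξ e) = N0 M ξ e := by
  have h : ∀ x ∈ N0 M ξ e, star x ∈ N0 M ξ e := by
    rintro _ ⟨a, ha, rfl⟩
    exact ⟨star a, Ec_star hD.pr.1 ha, cmp_star _ _⟩
  ext x
  rw [Set.mem_star]
  exact ⟨fun hx => by simpa using h _ hx, fun hx => h _ hx⟩

/-- the von Neumann algebra generated by the compressions -/
def NN (hD : Dat M ξ e) : VonNeumannAlgebra (SS M ξ e) where
  toStarSubalgebra := StarSubalgebra.centralizer ℂ (Set.centralizer (N0 M ξ e))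
  centralizer_centralizer' := by
    show Set.centralizer (Set.centralizer ((StarSubalgebra.centralizer ℂ
      (Set.centralizer (N0 M ξ e)) : StarSubalgebra ℂ _) : Set (BO (SS M ξ e)))) =
      ((StarSubalgebra.centralizer ℂ (Set.centralizer (N0 M ξ e)) : StarSubalgebra ℂ _) :
        Set (BO (SS M ξ e)))
    rw [StarSubalgebra.coe_centralizer, Set.centralizer_centralizer_centralizer]

theorem mem_NN (hD : Dat M ξ e) (n : BO (SS M ξ e)) :
    n ∈ NN hD ↔ n ∈ Set.centralizer (Set.centralizer (N0 M ξ e)) := by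
  have h1 : star (Set.centralizer (N0 M ξ e)) = Set.centralizer (N0 M ξ e) := by
    rw [Set.star_centralizer, star_N0 hD]
  have h2 : ((NN hD : VonNeumannAlgebra _) : Set (BO (SS M ξ e))) =
      Set.centralizer (Set.centralizer (N0 M ξ e)) := by
    show ((StarSubalgebra.centralizer ℂ (Set.centralizer (N0 M ξ e)) : StarSubalgebra ℂ _) :
        Set (BO (SS M ξ e))) = _
    rw [StarSubalgebra.coe_centralizer, h1, Set.union_self]
  rw [← SetLike.mem_coe, h2]

theorem exists_corner (hD : Dat M ξ e) (n : (NN hD).toStarSubalgebra) :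
    ∃ a ∈ Ec M e, cmp (SS M ξ e) a = (n : BO (SS M ξ e)) := by
  obtain ⟨u, c, hn, -⟩ := CStarAlgebra.exists_sum_four_unitary n
  have h1 : ∀ i : Fin 4, ∃ a ∈ Ec M e, cmp (SS M ξ e) a =
      (((u i : unitary _) : (NN hD).toStarSubalgebra) : BO (SS M ξ e)) := by
    intro i
    refine unit_case hD ((mem_NN hD _).mp (u i : (NN hD).toStarSubalgebra).2) ?_
    have h2 := congrArg (fun x : (NN hD).toStarSubalgebra => (x : BO (SS M ξ e)))
      (Unitary.star_mul_self_of_mem (u i).2)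
    exact h2
  choose a ha ha' using h1
  refine ⟨∑ i, c i • a i, ?_, ?_⟩
  · rw [Fin.sum_univ_four]
    exact Ec_add (Ec_add (Ec_add (Ec_smul _ (ha 0)) (Ec_smul _ (ha 1))) (Ec_smul _ (ha 2)))
      (Ec_smul _ (ha 3))
  · rw [hn, Fin.sum_univ_four, Fin.sum_univ_four, cmp_add, cmp_add, cmp_add, cmp_smul, cmp_smul,
      cmp_smul, cmp_smul, ha', ha', ha', ha']
    rfl

/-- the isomorphism onto the corner -/
def jj (hD : Dat M ξ e) (n : (NN hD).toStarSubalgebra) : H →L[ℂ] H := (exists_corner hD n).choose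

theorem jj_mem (hD : Dat M ξ e) (n : (NN hD).toStarSubalgebra) : jj hD n ∈ Ec M e :=
  (exists_corner hD n).choose_spec.1

theorem cmp_jj (hD : Dat M ξ e) (n : (NN hD).toStarSubalgebra) :
    cmp (SS M ξ e) (jj hD n) = (n : BO (SS M ξ e)) :=
  (exists_corner hD n).choose_spec.2

theorem cmp_inj (hD : Dat M ξ e) {a b : H →L[ℂ] H} (ha : a ∈ Ec M e) (hb : b ∈ Ec M e)
    (h : cmp (SS M ξ e) a = cmp (SS M ξ e) b) : a = b := by
  have h1 : a + (-1 : ℂ) • b ∈ Ec M e := Ec_add ha (Ec_smul _ hb)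
  have h2 : a + (-1 : ℂ) • b = 0 := by
    apply Ec_zero hD h1
    have h3 := congrArg (fun x : BO (SS M ξ e) => ((x ⟨ξ, ξ_mem hD⟩ : SS M ξ e) : H)) h
    rw [cmp_inv (SS M ξ e) (S_inv hD ha (ξ_mem hD)), cmp_inv (SS M ξ e)
      (S_inv hD hb (ξ_mem hD))] at h3
    have h4 : a ξ = b ξ := h3
    simp [h4]
  have h5 : a + (-1 : ℂ) • b = a - b := by simp [sub_eq_add_neg]
  rw [h5] at h2
  exact sub_eq_zero.mp h2

theorem cmp_mul (hD : Dat M ξ e) {a b : H →L[ℂ] H} (ha : a ∈ Ec M e) (hb : b ∈ Ec M e) :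
    cmp (SS M ξ e) (a * b) = cmp (SS M ξ e) a * cmp (SS M ξ e) b := by
  ext1 s
  rw [ContinuousLinearMap.mul_apply, cmp_inv (SS M ξ e) (S_inv hD hb s.2),
    cmp_inv (SS M ξ e) (S_inv hD (Ec_mul ha hb) s.2)]
  rw [cmp_inv (SS M ξ e) (s := ⟨b (s : H), S_inv hD hb s.2⟩) (S_inv hD ha (S_inv hD hb s.2))]
  rfl

theorem apply_jj (hD : Dat M ξ e) (n : (NN hD).toStarSubalgebra) (s : SS M ξ e) :
    (((n : BO (SS M ξ e)) s : SS M ξ e) : H) = jj hD n (s : H) := by
  rw [← cmp_jj hD n, cmp_inv (SS M ξ e) (S_inv hD (jj_mem hD n) s.2)]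

end main

end ZZ92

open ZZ92 in
theorem bp_std1 : Z_std1 := by
  intro H _ _ _ M ξ e he hpr hfix hsup
  have hD : Dat M ξ e := ⟨he, hpr, hfix, hsup⟩
  have hjadd : ∀ a b, jj hD (a + b) = jj hD a + jj hD b := fun a b =>
    cmp_inj hD (jj_mem hD _) (Ec_add (jj_mem hD _) (jj_mem hD _)) (by
      rw [cmp_add, cmp_jj, cmp_jj, cmp_jj]; rfl)
  have hjsmul : ∀ (c : ℂ) a, jj hD (c • a) = c • jj hD a := fun c a =>
    cmp_inj hD (jj_mem hD _) (Ec_smul _ (jj_mem hD _)) (by
      rw [cmp_smul, cmp_jj, cmp_jj]; rfl)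
  have hjmul : ∀ a b, jj hD (a * b) = jj hD a * jj hD b := fun a b =>
    cmp_inj hD (jj_mem hD _) (Ec_mul (jj_mem hD _) (jj_mem hD _)) (by
      rw [cmp_mul hD (jj_mem hD _) (jj_mem hD _), cmp_jj, cmp_jj, cmp_jj]; rfl)
  have hjstar : ∀ a, jj hD (star a) = star (jj hD a) := fun a =>
    cmp_inj hD (jj_mem hD _) (Ec_star hpr.1 (jj_mem hD _)) (by
      rw [cmp_star, cmp_jj, cmp_jj]; rfl)
  refine ⟨SS M ξ e, inferInstance, inferInstance, inferInstance, NN hD, ⟨ξ, ξ_mem hD⟩,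
    { toFun := jj hD, map_add' := hjadd, map_smul' := hjsmul }, ?_⟩
  constructor
  · exact hjmul
  · exact hjstar
  · intro a
    show ‖jj hD a‖ = ‖a‖
    apply le_antisymm
    · set J : (NN hD).toStarSubalgebra →⋆ₙₐ[ℂ] (H →L[ℂ] H) :=
        { toFun := jj hD
          map_smul' := hjsmul
          map_zero' := by
            have := hjsmul 0 0
            rwa [zero_smul, zero_smul] at this
          map_add' := hjadd
          map_mul' := hjmul
          map_star' := hjstar } with hJ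
      exact NonUnitalStarAlgHom.norm_apply_le J a
    · show ‖(a : BO (SS M ξ e))‖ ≤ ‖jj hD a‖
      refine ContinuousLinearMap.opNorm_le_bound _ (norm_nonneg _) fun s => ?_
      have h1 : ‖(a : BO (SS M ξ e)) s‖ = ‖jj hD a (s : H)‖ := by
        rw [← apply_jj hD a s]; rfl
      rw [h1]
      exact (jj hD a).le_opNorm _
  · intro a
    obtain ⟨h1, h2, h3⟩ := jj_mem hD a
    exact ⟨h1, h2, h3⟩
  · intro m hm h1 h2
    have hmE : m ∈ Ec M e := ⟨hm, h1, h2⟩
    have hN : cmp (SS M ξ e) m ∈ NN hD := by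
      rw [mem_NN]
      exact Set.subset_centralizer_centralizer ⟨m, hmE, rfl⟩
    refine ⟨⟨cmp (SS M ξ e) m, hN⟩, ?_⟩
    exact cmp_inj hD (jj_mem hD _) hmE (cmp_jj hD _)
  · intro a
    rw [Fin.sum_univ_one]
    show ‖(a : BO (SS M ξ e)) ⟨ξ, ξ_mem hD⟩‖ ^ 2 = ‖jj hD a ξ‖ ^ 2
    rw [← apply_jj hD a ⟨ξ, ξ_mem hD⟩]; rfl
  · intro ζ ε hε
    have hy : (ζ : H) ∈ closure ((LinearMap.range (vm M ξ e) : Submodule ℂ H) : Set H) := ζ.2
    obtain ⟨z, ⟨m, rfl⟩, hz⟩ := Metric.mem_closure_iff.mp hy ε hε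
    have hmE : e * (m : H →L[ℂ] H) * e ∈ Ec M e := by
      refine ⟨mul_mem (mul_mem he m.2) he, ?_, ?_⟩
      · rw [← mul_assoc, ← mul_assoc, hpr.2]
      · rw [mul_assoc, hpr.2]
    refine ⟨cmp (SS M ξ e) (e * (m : H →L[ℂ] H) * e), ?_, ?_⟩
    · show _ ∈ NN hD
      rw [mem_NN]
      exact Set.subset_centralizer_centralizer ⟨_, hmE, rfl⟩
    · rw [cmp_inv (SS M ξ e) (S_inv hD hmE (ξ_mem hD))]
      show ‖(e * (m : H →L[ℂ] H) * e) ξ - (ζ : H)‖ < ε
      rw [ContinuousLinearMap.mul_apply, ContinuousLinearMap.mul_apply, hfix, ← dist_eq_norm,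
        dist_comm]
      exact hz
  · intro ζ ε hε
    -- the closure of `M' ξ`
    set vt : M.commutant.toStarSubalgebra →ₗ[ℂ] H :=
      { toFun := fun t => (t : H →L[ℂ] H) ξ
        map_add' := fun t t' => by simp
        map_smul' := fun c t => by simp } with hvt
    set Q : Submodule ℂ H := (LinearMap.range vt).topologicalClosure with hQ
    have : CompleteSpace Q := (Submodule.isClosed_topologicalClosure _).completeSpace_coe
    have hζQ : (ζ : H) ∈ Q := by
      have h1 : (1 - Q.subtypeL ∘L Q.subtypeL.adjoint : H →L[ℂ] H) * e = 0 := by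
        apply hsup
        intro t ht
        have htQ : t ξ ∈ Q := Submodule.le_topologicalClosure _ ⟨⟨t, ht⟩, rfl⟩
        have h2 : Q.subtypeL.adjoint (t ξ) = ⟨t ξ, htQ⟩ := by
          refine ext_inner_left ℂ fun s' => ?_
          rw [ContinuousLinearMap.adjoint_inner_right]
          rfl
        rw [ContinuousLinearMap.sub_apply, ContinuousLinearMap.comp_apply, h2,
          ContinuousLinearMap.one_apply]
        exact sub_self _
      have h2 := congrArg (fun x : H →L[ℂ] H => x (ζ : H)) h1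
      simp only [ContinuousLinearMap.mul_apply, S_fix hD ζ.2, ContinuousLinearMap.sub_apply,
        ContinuousLinearMap.comp_apply, ContinuousLinearMap.one_apply,
        ContinuousLinearMap.zero_apply] at h2
      have h3 : (ζ : H) = Q.subtypeL (Q.subtypeL.adjoint (ζ : H)) := sub_eq_zero.mp h2
      rw [h3]
      exact (Q.subtypeL.adjoint (ζ : H)).2
    have hy : (ζ : H) ∈ closure ((LinearMap.range vt : Submodule ℂ H) : Set H) := hζQ
    obtain ⟨z, ⟨t, rfl⟩, hz⟩ := Metric.mem_closure_iff.mp hy ε hε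
    refine ⟨cmp (SS M ξ e) (t : H →L[ℂ] H), ?_, ?_⟩
    · show _ ∈ (NN hD).commutant
      rw [VonNeumannAlgebra.mem_commutant_iff]
      intro g hg
      rw [mem_NN] at hg
      exact (hg _ (cmp_comm hD t.2)).symm
    · have h1 : cmp (SS M ξ e) (t : H →L[ℂ] H) ⟨ξ, ξ_mem hD⟩ - ζ =
          (SS M ξ e).subtypeL.adjoint ((t : H →L[ℂ] H) ξ - (ζ : H)) := by
        rw [map_sub]
        congr 1
        refine ext_inner_left ℂ fun s' => ?_
        rw [ContinuousLinearMap.adjoint_inner_right]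
        rfl
      rw [h1]
      refine (ContinuousLinearMap.le_opNorm _ _).trans_lt ?_
      have h2 : ‖(SS M ξ e).subtypeL.adjoint‖ ≤ 1 := by
        rw [LinearIsometryEquiv.norm_map]
        exact Submodule.norm_subtypeL_le _
      calc _ ≤ 1 * ‖(t : H →L[ℂ] H) ξ - (ζ : H)‖ :=
            mul_le_mul_of_nonneg_right h2 (norm_nonneg _)
        _ = dist (ζ : H) ((t : H →L[ℂ] H) ξ) := by rw [one_mul, dist_comm, dist_eq_norm]
        _ < ε := hz

end H97R2.BP
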